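import Pool.Agent.V11311.SL.F

/-! The sum of the trajectory, part G: the theorem. -/

set_option autoImplicit false

namespace Pool.Agent.V11311.SL

open Finset Filter Topology Pool.Agent.V11311.FP Pool.Agent.V11311.RC

open Pool.Agent.V11311.DV (fl fl_card mem_fl)

open Pool.Agent.Helper894.Collatz (T od er od_add iter_eq T_even T_odd period sum_pow_od)

open Pool.Agent.H377R2 (iter_pos)

open Pool.Agent.H499R2.ND (Dn Tn Phi)

open Pool.Agent.H499R2.HL (Pev bk H law_class)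

open Pool.Agent.Results.MP_2d22f3_nt.CompleteTrajectories (Reaches)

/-- **the law of the sum** -/
theorem sum_law {δ : ℝ} (hδ0 : 0 ≤ δ) (hδ1 : δ ≤ 1)
    (hcl : ∀ x : ℝ, ∀ Q : ℕ, 0 < Q → ∀ A : ℕ → Prop, Per Q A → HasD (fun n => A n ∧ Ev x n) (δ * Phi x * prq Q A))
    {p : ℝ} (hp : 0 < p) (u x : ℝ) (hPhi0 : 0 ≤ Phi x) (hPhi1 : Phi x ≤ 1) :
    HasD (SE p u x) (δ * Phi x * FF p u) := by
  classical
  have hbe : (0 : ℝ) < be := by unfold be; norm_num
  have hbe1 : be < 1 := by unfold be; norm_num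
  have hbp : be ^ p < 1 := Real.rpow_lt_one hbe.le hbe1 hp
  have hbp0 : 0 < be ^ p := by positivity
  set c := δ * Phi x with hc
  have hc0 : 0 ≤ c := mul_nonneg hδ0 hPhi0
  have hc1 : c ≤ 1 := mul_le_one₀ hδ1 hPhi0 hPhi1
  unfold HasD
  rw [Metric.tendsto_atTop']
  intro ε hε
  -- the choice of the parameters
  obtain ⟨η, hη, hFη⟩ : ∃ η : ℝ, 0 < η ∧ FF p u - ε / 4 < FF p (u - η) := by
    have h1 := (FF_cont p hp).continuousAt (x := u)
    have h2 := h1.eventually (lt_mem_nhds (show FF p u - ε / 4 < FF p u by linarith))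
    obtain ⟨r, hr, h3⟩ := Metric.eventually_nhds_iff.1 h2
    refine ⟨r / 2, by positivity, h3 ?_⟩
    rw [Real.dist_eq, abs_lt]
    constructor <;> linarith
  have ht0 : Tendsto (fun K : ℕ => (be ^ p) ^ K / (1 - be ^ p)) atTop (𝓝 0) := by
    have := (tendsto_pow_atTop_nhds_zero_of_lt_one hbp0.le hbp).div_const (1 - be ^ p)
    rwa [zero_div] at this
  obtain ⟨K0, hK0⟩ := decay_ev (ε / 8) (by positivity)
  obtain ⟨K, ⟨hK1, hK2⟩, hK3⟩ := (((ht0.eventually (gt_mem_nhds (show (0 : ℝ) < η / 2 by positivity))).and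
    ((FF_lim p u).eventually (gt_mem_nhds (show FF p u < FF p u + ε / 4 by linarith)))).and
    (eventually_ge_atTop K0)).exists
  obtain ⟨n0, hn0⟩ := SE_lower (p := p) (u := u) (x := x) (K := K) hp hη hK1.le
  have hdec := hK0 K hK3
  have hup := hcl x (2 ^ K) (by positivity) _ (wp_per p u K)
  have hlo := hcl x (2 ^ K) (by positivity) _ (wp_per p (u - η) K)
  have e1 : ∀ᶠ N : ℕ in atTop, ((2 ^ K + n0 : ℕ) : ℝ) / N < ε / 4 :=
    (tendsto_const_div_atTop_nhds_zero_nat _).eventually (gt_mem_nhds (by positivity))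
  have e2 := hup.eventually (gt_mem_nhds (show δ * Phi x * prq (2 ^ K) (fun n => wp p K n ≤ u) <
    δ * Phi x * prq (2 ^ K) (fun n => wp p K n ≤ u) + ε / 4 by linarith))
  have e3 := hlo.eventually (lt_mem_nhds (show δ * Phi x * prq (2 ^ K) (fun n => wp p K n ≤ u - η) - ε / 4 <
    δ * Phi x * prq (2 ^ K) (fun n => wp p K n ≤ u - η) by linarith))
  obtain ⟨N0, hN0⟩ := eventually_atTop.1 (e1.and (e2.and (e3.and (hdec.and (eventually_gt_atTop 0)))))
  refine ⟨N0, fun N hN => ?_⟩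
  obtain ⟨g1, g2, g3, g4, g5⟩ := hN0 N hN.le
  have hNR : (0 : ℝ) < N := by exact_mod_cast g5
  -- upper bound
  have h1 : cN (SE p u x) N ≤ cN (fun n => wp p K n ≤ u ∧ Ev x n) N + 2 ^ K := by
    rw [← fl_card, ← fl_card]
    have hsub : fl (SE p u x) N ⊆ fl (fun n => wp p K n ≤ u ∧ Ev x n) N ∪ Icc 1 (2 ^ K) := by
      intro n hn
      rw [mem_fl] at hn
      rw [mem_union, mem_fl, mem_Icc]
      rcases Nat.lt_or_ge (2 ^ K) n with h | h
      · exact Or.inl ⟨hn.1, SE_upper hp h hn.2⟩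
      · exact Or.inr ⟨hn.1.1, h⟩
    have := (card_le_card hsub).trans (card_union_le _ _)
    rwa [Nat.card_Icc, Nat.add_sub_cancel] at this
  have h2 : cN (fun n => wp p K n ≤ u - η ∧ Ev x n) N ≤
      cN (SE p u x) N + (cN (fun n => Reaches n ∧ ¬ Gd K n) N + n0) := by
    rw [← fl_card, ← fl_card, ← fl_card]
    have hsub : fl (fun n => wp p K n ≤ u - η ∧ Ev x n) N ⊆
        fl (SE p u x) N ∪ (fl (fun n => Reaches n ∧ ¬ Gd K n) N ∪ range n0) := by
      intro n hn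
      rw [mem_fl] at hn
      rw [mem_union, mem_union, mem_fl, mem_fl, mem_range]
      rcases Nat.lt_or_ge n n0 with h | h
      · exact Or.inr (Or.inr h)
      · by_cases h3 : Gd K n
        · exact Or.inl ⟨hn.1, hn0 n h hn.2.1 hn.2.2 h3⟩
        · refine Or.inr (Or.inl ⟨hn.1, ?_, h3⟩)
          obtain ⟨t, ht, _⟩ := hn.2.2
          exact (reach_iff n).2 ⟨t, ht⟩
    have := (card_le_card hsub).trans ((card_union_le _ _).trans (Nat.add_le_add_left (card_union_le _ _) _))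
    rwa [card_range] at this
  have h1' : (cN (SE p u x) N : ℝ) ≤ cN (fun n => wp p K n ≤ u ∧ Ev x n) N + (2 ^ K : ℕ) := by exact_mod_cast h1
  have h2' : (cN (fun n => wp p K n ≤ u - η ∧ Ev x n) N : ℝ) ≤
      cN (SE p u x) N + (cN (fun n => Reaches n ∧ ¬ Gd K n) N + n0) := by exact_mod_cast h2
  rw [div_lt_iff₀ hNR] at g1 g2
  rw [lt_div_iff₀ hNR] at g3
  push_cast at g1 h1'
  have hn00 : (0 : ℝ) ≤ n0 := Nat.cast_nonneg _
  have h2K : (0 : ℝ) ≤ 2 ^ K := by positivity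
  have k1 : δ * Phi x * prq (2 ^ K) (fun n => wp p K n ≤ u) ≤ c * FF p u + ε / 4 := by
    have g6 : c * FK p K u ≤ c * (FF p u + ε / 4) := mul_le_mul_of_nonneg_left hK2.le hc0
    have g7 : c * (ε / 4) ≤ 1 * (ε / 4) := mul_le_mul_of_nonneg_right hc1 (by positivity)
    unfold FK at g6
    linarith
  have k2 : c * FF p u - ε / 4 ≤ δ * Phi x * prq (2 ^ K) (fun n => wp p K n ≤ u - η) := by
    have g6 : c * FF p (u - η) ≤ c * FK p K (u - η) := mul_le_mul_of_nonneg_left (FF_le_FK p (u - η) K) hc0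
    have g7 : c * (ε / 4) ≤ 1 * (ε / 4) := mul_le_mul_of_nonneg_right hc1 (by positivity)
    have g8 : c * (FF p u - ε / 4) ≤ c * FF p (u - η) := mul_le_mul_of_nonneg_left hFη.le hc0
    unfold FK at g6
    linarith
  rw [Real.dist_eq, abs_lt]
  constructor
  · rw [lt_sub_iff_add_lt, lt_div_iff₀ hNR]
    have k3 : (c * FF p u - ε / 4) * N ≤ δ * Phi x * prq (2 ^ K) (fun n => wp p K n ≤ u - η) * N :=
      mul_le_mul_of_nonneg_right k2 hNR.le
    nlinarith
  · rw [sub_lt_iff_lt_add, div_lt_iff₀ hNR]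
    have k3 : δ * Phi x * prq (2 ^ K) (fun n => wp p K n ≤ u) * N ≤ (c * FF p u + ε / 4) * N :=
      mul_le_mul_of_nonneg_right k1 hNR.le
    nlinarith

end Pool.Agent.V11311.SL
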