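import Pool.Agent.V11311.SL.E
import Pool.Agent.V11311.GT.Z
import Pool.Agent.H499R2.HL.E
import Pool.Agent.H499R2.NDCol

/-! The sum of the trajectory, part F: the limit law for the trajectories. -/

set_option autoImplicit false

namespace Pool.Agent.V11311.SL

open Finset Filter Topology Pool.Agent.V11311.FP Pool.Agent.V11311.RC

open Pool.Agent.V11311.DV (fl fl_card mem_fl)

open Pool.Agent.Helper894.Collatz (T od er od_add iter_eq T_even T_odd period sum_pow_od)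

open Pool.Agent.H377R2 (iter_pos)

open Pool.Agent.H499R2.ND (Dn Tn Phi)

open Pool.Agent.H499R2.HL (Pev bk H law_class)

/-- `n` reaches `1` in time -/
def Ev (x : ℝ) (n : ℕ) : Prop := ∃ t : ℕ, TST n t ∧ (t : ℝ) ≤ bk x (Real.log n)

theorem pev_iff (x : ℝ) (n : ℕ) : Pev 1 0 0 x n ↔ Ev x n := by
  constructor
  · rintro ⟨k, h1, h2, _, _⟩
    exact ⟨k, h2, h1⟩
  · rintro ⟨k, h1, h2⟩
    exact ⟨k, h2, h1, by simpa using Int.modEq_one, by simpa using Int.modEq_one⟩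

theorem hasD_Dn {P : ℕ → Prop} {l : ℝ} (h : Dn P l) : HasD P l := by
  unfold Dn at h
  unfold HasD
  refine h.congr fun N => ?_
  rw [Pool.Agent.V11311.GT.cN_cnt]

theorem class_sum {Q : ℕ} (hQ : 0 < Q) {A E : ℕ → Prop} (hA : Per Q A) {c : ℝ}
    (h : ∀ r < Q, HasD (fun n => n % Q = r ∧ E n) (c / Q)) : HasD (fun n => A n ∧ E n) (c * prq Q A) := by
  classical
  set R := (range Q).filter A with hR
  have h1 : ∀ N, cN (fun n => A n ∧ E n) N = ∑ r ∈ R, cN (fun n => n % Q = r ∧ E n) N := by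
    intro N
    rw [← fl_card, card_eq_sum_card_fiberwise (f := fun n => n % Q) (t := R)]
    · apply sum_congr rfl
      intro r hr
      rw [← fl_card]
      congr 1
      ext n
      rw [mem_filter, mem_fl, mem_fl]
      constructor
      · rintro ⟨⟨g1, g2, g3⟩, g4⟩
        exact ⟨g1, g4, g3⟩
      · rintro ⟨g1, g2, g3⟩
        refine ⟨⟨g1, ?_, g3⟩, g2⟩
        rw [← hA, g2]
        exact (mem_filter.1 hr).2
    · intro n hn
      rw [mem_coe, mem_fl] at hn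
      rw [mem_coe, hR, mem_filter, mem_range]
      exact ⟨Nat.mod_lt _ hQ, (hA _).2 hn.2.1⟩
  have h2 : Tendsto (fun N : ℕ => ∑ r ∈ R, (cN (fun n => n % Q = r ∧ E n) N : ℝ) / N) atTop (𝓝 (∑ _r ∈ R, c / Q)) :=
    tendsto_finsetSum _ fun r hr => h r (mem_range.1 (mem_filter.1 hr).1)
  have h3 : ∑ _r ∈ R, c / Q = c * prq Q A := by
    rw [sum_const, nsmul_eq_mul, prq_eq]
    ring
  rw [h3] at h2
  unfold HasD
  refine h2.congr fun N => ?_
  rw [← sum_div, h1]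
  push_cast
  rfl

theorem lower_val (j n : ℕ) : (3 : ℝ) ^ od j n / 2 ^ j * n ≤ T^[j] n := by
  have h1 := iter_eq j n
  have h2 : (2 : ℝ) ^ j * (T^[j] n : ℕ) = 3 ^ od j n * n + er j n := by exact_mod_cast h1
  have h3 : (0 : ℝ) ≤ er j n := Nat.cast_nonneg _
  rw [div_mul_eq_mul_div, div_le_iff₀ (by positivity)]
  linarith

theorem upper_val {j K n : ℕ} (hj : j ≤ K) (hn : 0 < n) :
    (T^[j] n : ℝ) ≤ (3 ^ od j n / 2 ^ j + (K * 4 ^ K : ℕ) / n) * n := by
  have hnR : (0 : ℝ) < n := by exact_mod_cast hn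
  have h1 := iter_eq j n
  have h2 : (2 : ℝ) ^ j * (T^[j] n : ℕ) = 3 ^ od j n * n + er j n := by exact_mod_cast h1
  have h3 : (er j n : ℝ) ≤ (K * 4 ^ K : ℕ) := by
    exact_mod_cast (er_le j n).trans (Nat.mul_le_mul hj (Nat.pow_le_pow_right (by norm_num) hj))
  have h4 : (3 ^ od j n / 2 ^ j + ((K * 4 ^ K : ℕ) : ℝ) / n) * n = (3 ^ od j n * n + 2 ^ j * (K * 4 ^ K : ℕ)) / 2 ^ j := by
    field_simp
  rw [h4, le_div_iff₀ (by positivity), mul_comm, h2]
  have h5 : (1 : ℝ) ≤ 2 ^ j := one_le_pow₀ (by norm_num)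
  have h6 : (0 : ℝ) ≤ (K * 4 ^ K : ℕ) := Nat.cast_nonneg _
  nlinarith

theorem time_gt {K n t : ℕ} (ht : TST n t) (hn : 2 ^ K < n) : K < t := by
  by_contra hcon
  push Not at hcon
  have h1 := iter_eq t n
  rw [ht.1, mul_one] at h1
  have h2 : 1 ≤ 3 ^ od t n := Nat.one_le_pow _ _ (by norm_num)
  have h3 : 2 ^ t ≤ 2 ^ K := Nat.pow_le_pow_right (by norm_num) hcon
  nlinarith [Nat.zero_le (er t n)]

/-- the event of the law -/
def SE (p u x : ℝ) (n : ℕ) : Prop := ∃ t : ℕ, TST n t ∧ (t : ℝ) ≤ bk x (Real.log n) ∧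
  ∑ j ∈ range (t + 1), (T^[j] n : ℝ) ^ p ≤ u * (n : ℝ) ^ p

theorem SE_upper {p : ℝ} (hp : 0 < p) {u x : ℝ} {K n : ℕ} (hn : 2 ^ K < n) (h : SE p u x n) :
    wp p K n ≤ u ∧ Ev x n := by
  obtain ⟨t, ht, h1, h2⟩ := h
  refine ⟨?_, t, ht, h1⟩
  have hKt := time_gt ht hn
  have hn0 : 0 < n := (Nat.zero_le _).trans_lt hn
  have hnR : (0 : ℝ) < n := by exact_mod_cast hn0
  have hnp : (0 : ℝ) < (n : ℝ) ^ p := by positivity
  have h3 : wp p K n * (n : ℝ) ^ p ≤ ∑ j ∈ range (t + 1), (T^[j] n : ℝ) ^ p := by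
    unfold wp
    rw [sum_mul]
    calc ∑ j ∈ range (K + 1), ((3 : ℝ) ^ od j n / 2 ^ j) ^ p * (n : ℝ) ^ p
        ≤ ∑ j ∈ range (K + 1), (T^[j] n : ℝ) ^ p := by
          apply sum_le_sum
          intro j _
          rw [← Real.mul_rpow (by positivity) hnR.le]
          exact Real.rpow_le_rpow (by positivity) (lower_val j n) hp.le
      _ ≤ _ := by
          apply sum_le_sum_of_subset_of_nonneg
          · intro j hj
            rw [mem_range] at hj ⊢
            omega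
          · intro j _ _
            positivity
  exact le_of_mul_le_mul_right (h3.trans h2) hnp

theorem SE_lower {p : ℝ} (hp : 0 < p) {u x η : ℝ} {K : ℕ} (hη : 0 < η)
    (htail : (be ^ p) ^ K / (1 - be ^ p) ≤ η / 2) : ∃ n0 : ℕ, ∀ n, n0 ≤ n → wp p K n ≤ u - η → Ev x n → Gd K n →
    SE p u x n := by
  classical
  have hbe : (0 : ℝ) < be := by unfold be; norm_num
  have hbe1 : be < 1 := by unfold be; norm_num
  have hbp : be ^ p < 1 := Real.rpow_lt_one hbe.le hbe1 hp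
  have hbp0 : 0 < be ^ p := by positivity
  have hev : ∀ᶠ n : ℕ in atTop, ∀ y ∈ range (2 ^ K), ∀ j ∈ range (K + 1),
      ((3 : ℝ) ^ od j y / 2 ^ j + (K * 4 ^ K : ℕ) / n) ^ p ≤ ((3 : ℝ) ^ od j y / 2 ^ j) ^ p + η / (2 * (K + 1)) := by
    rw [eventually_all_finset]
    intro y _
    rw [eventually_all_finset]
    intro j _
    have h1 : Tendsto (fun n : ℕ => ((3 : ℝ) ^ od j y / 2 ^ j + ((K * 4 ^ K : ℕ) : ℝ) / n) ^ p) atTop
        (𝓝 (((3 : ℝ) ^ od j y / 2 ^ j + 0) ^ p)) :=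
      (tendsto_const_nhds.add (tendsto_const_div_atTop_nhds_zero_nat _)).rpow_const (Or.inr hp.le)
    rw [add_zero] at h1
    have h2 : ((3 : ℝ) ^ od j y / 2 ^ j) ^ p < ((3 : ℝ) ^ od j y / 2 ^ j) ^ p + η / (2 * (K + 1)) := by
      have : 0 < η / (2 * (K + 1)) := by positivity
      linarith
    filter_upwards [h1.eventually (gt_mem_nhds h2)] with n hn
    exact hn.le
  obtain ⟨n1, hn1⟩ := eventually_atTop.1 hev
  refine ⟨max n1 (2 ^ K + 1), fun n hn hw hE hG => ?_⟩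
  have hnn1 : n1 ≤ n := (le_max_left _ _).trans hn
  have hnK : 2 ^ K < n := by
    have := (le_max_right n1 (2 ^ K + 1)).trans hn
    omega
  have hn0 : 0 < n := (Nat.zero_le _).trans_lt hnK
  have hnR : (0 : ℝ) < n := by exact_mod_cast hn0
  have hnp : (0 : ℝ) < (n : ℝ) ^ p := by positivity
  obtain ⟨t, ht, h1⟩ := hE
  obtain ⟨t', ht', h2⟩ := hG
  rw [← ht.unique ht'] at h2
  refine ⟨t, ht, h1, ?_⟩
  have hKt := time_gt ht hnK
  have h3 : ∑ j ∈ range (K + 1), (T^[j] n : ℝ) ^ p ≤ (wp p K n + η / 2) * (n : ℝ) ^ p := by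
    have h4 : ∀ j ∈ range (K + 1), (T^[j] n : ℝ) ^ p ≤ (((3 : ℝ) ^ od j n / 2 ^ j) ^ p + η / (2 * (K + 1))) * (n : ℝ) ^ p := by
      intro j hj
      have hjK : j ≤ K := by rw [mem_range] at hj; omega
      have h5 := hn1 n hnn1 (n % 2 ^ K) (mem_range.2 (Nat.mod_lt _ (by positivity))) j hj
      rw [od_mod K n hjK] at h5
      calc (T^[j] n : ℝ) ^ p ≤ ((3 ^ od j n / 2 ^ j + (K * 4 ^ K : ℕ) / n) * n) ^ p :=
            Real.rpow_le_rpow (Nat.cast_nonneg _) (upper_val hjK hn0) hp.le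
        _ = (3 ^ od j n / 2 ^ j + (K * 4 ^ K : ℕ) / n) ^ p * (n : ℝ) ^ p := Real.mul_rpow (by positivity) hnR.le
        _ ≤ _ := mul_le_mul_of_nonneg_right h5 hnp.le
    refine (sum_le_sum h4).trans (le_of_eq ?_)
    rw [← sum_mul, sum_add_distrib, sum_const, card_range, nsmul_eq_mul]
    unfold wp
    congr 2
    push_cast
    field_simp
  have h4 : ∑ j ∈ Ico (K + 1) (t + 1), (T^[j] n : ℝ) ^ p ≤ η / 2 * (n : ℝ) ^ p := by
    have h5 : ∀ j ∈ Ico (K + 1) (t + 1), (T^[j] n : ℝ) ^ p ≤ (be ^ p) ^ j * (n : ℝ) ^ p := by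
      intro j hj
      rw [mem_Ico] at hj
      calc (T^[j] n : ℝ) ^ p ≤ (be ^ j * n) ^ p :=
            Real.rpow_le_rpow (Nat.cast_nonneg _) (h2 j (by omega) (by omega)) hp.le
        _ = (be ^ j) ^ p * (n : ℝ) ^ p := Real.mul_rpow (by positivity) hnR.le
        _ = (be ^ p) ^ j * (n : ℝ) ^ p := by
            congr 1
            rw [← Real.rpow_natCast, ← Real.rpow_mul hbe.le, mul_comm, Real.rpow_mul hbe.le, Real.rpow_natCast]
    refine (sum_le_sum h5).trans ?_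
    rw [← sum_mul]
    apply mul_le_mul_of_nonneg_right _ hnp.le
    refine le_trans ?_ htail
    have h6 : ∑ j ∈ Ico (K + 1) (t + 1), (be ^ p) ^ j ≤ ∑ j ∈ Ico K (t + 1), (be ^ p) ^ j := by
      apply sum_le_sum_of_subset_of_nonneg
      · intro j hj
        rw [mem_Ico] at hj ⊢
        omega
      · intro j _ _
        positivity
    refine h6.trans ?_
    rw [geom_sum_Ico' hbp.ne (by omega)]
    apply div_le_div_of_nonneg_right _ (by linarith)
    have : 0 ≤ (be ^ p) ^ (t + 1) := by positivity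
    linarith
  have h5 : ∑ j ∈ range (t + 1), (T^[j] n : ℝ) ^ p
      = ∑ j ∈ range (K + 1), (T^[j] n : ℝ) ^ p + ∑ j ∈ Ico (K + 1) (t + 1), (T^[j] n : ℝ) ^ p := by
    rw [range_eq_Ico, range_eq_Ico, sum_Ico_consecutive _ (Nat.zero_le _) (by omega)]
  rw [h5]
  calc _ ≤ (wp p K n + η / 2) * (n : ℝ) ^ p + η / 2 * (n : ℝ) ^ p := add_le_add h3 h4
    _ = (wp p K n + η) * (n : ℝ) ^ p := by ring
    _ ≤ u * (n : ℝ) ^ p := mul_le_mul_of_nonneg_right (by linarith) hnp.le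

end Pool.Agent.V11311.SL
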