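import Pool.Agent.V11311.RC.K
import Pool.Agent.V11311.GT.E

/-! The sum of the trajectory, part A: geometric decay of the trajectories. -/

set_option autoImplicit false

namespace Pool.Agent.V11311.SL

open Finset Filter Topology Pool.Agent.V11311.FP Pool.Agent.V11311.RC

open Pool.Agent.V11311.DV (fl fl_card mem_fl)

open Pool.Agent.Helper894.Collatz (T od er od_add iter_eq T_even T_odd period sum_pow_od)

open Pool.Agent.H377R2 (iter_pos)

open Pool.Agent.H319R2.Lln (mu mu_lower mu_upper mu_eq)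

open Pool.Agent.V11311.PD (Typ)

theorem cN_period {q : ℕ} (P : ℕ → Prop) [DecidablePred P] (hP : ∀ n, P (n % q) ↔ P n) (m : ℕ) :
    cN P (q * m) = m * ((range q).filter P).card := by
  classical
  have hper : Function.Periodic P q := fun n => by
    rw [eq_iff_iff, ← hP (n + q), Nat.add_mod_right, hP]
  induction m with
  | zero =>
    rw [mul_zero, zero_mul, ← fl_card]
    have : fl P 0 = ∅ := by
      ext n
      rw [mem_fl]
      simp
      omega
    rw [this, card_empty]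
  | succ m ih =>
    have h1 : fl P (q * (m + 1)) = fl P (q * m) ∪ (Ico (q * m + 1) (q * m + 1 + q)).filter P := by
      ext n
      rw [mem_union, mem_filter, mem_fl, mem_fl, mem_Ico, mul_add, mul_one]
      constructor
      · rintro ⟨⟨h2, h3⟩, h4⟩
        rcases Nat.lt_or_ge (q * m) n with h | h
        · exact Or.inr ⟨⟨by omega, by omega⟩, h4⟩
        · exact Or.inl ⟨⟨h2, h⟩, h4⟩
      · rintro (⟨⟨h2, h3⟩, h4⟩ | ⟨⟨h2, h3⟩, h4⟩)
        · exact ⟨⟨h2, by omega⟩, h4⟩
        · exact ⟨⟨by omega, by omega⟩, h4⟩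
    rw [← fl_card, h1, card_union_of_disjoint, fl_card, ih]
    · rw [Nat.filter_Ico_card_eq_of_periodic _ _ _ hper, Nat.count_eq_card_filter_range, add_mul, one_mul]
    · rw [disjoint_left]
      intro n h2 h3
      rw [mem_fl] at h2
      rw [mem_filter, mem_Ico] at h3
      omega

theorem cN_le_of_le (P : ℕ → Prop) {N N' : ℕ} (h : N ≤ N') : cN P N ≤ cN P N' := by
  rw [← fl_card, ← fl_card]
  apply card_le_card
  intro n hn
  rw [mem_fl] at hn ⊢
  exact ⟨⟨hn.1.1, hn.1.2.trans h⟩, hn.2⟩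

theorem cN_rare {j N : ℕ} (P : ℕ → Prop) (hP : Per (2 ^ j) P) (hN : 2 ^ j ≤ N) :
    (cN P N : ℝ) ≤ 2 * N * pr j P := by
  classical
  have h1 : cN P N ≤ cN P (2 ^ j * (N / 2 ^ j + 1)) := by
    apply cN_le_of_le
    rw [mul_add, mul_one]
    have := Nat.mod_add_div N (2 ^ j)
    have h2 := Nat.mod_lt N (show 0 < 2 ^ j by positivity)
    omega
  rw [cN_period P hP] at h1
  have h2 : (cN P N : ℝ) ≤ (((N / 2 ^ j : ℕ) : ℝ) + 1) * ((range (2 ^ j)).filter P).card := by exact_mod_cast h1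
  refine h2.trans ?_
  rw [← prq_pow, prq_eq]
  push_cast
  have h3 : ((N / 2 ^ j : ℕ) : ℝ) ≤ N / 2 ^ j := by
    have := Nat.cast_div_le (α := ℝ) (m := N) (n := 2 ^ j)
    push_cast at this
    exact this
  have h4 : (1 : ℝ) ≤ N / 2 ^ j := by
    rw [one_le_div (by positivity)]
    exact_mod_cast hN
  have h5 : (0 : ℝ) ≤ ((range (2 ^ j)).filter P).card := Nat.cast_nonneg _
  calc (((N / 2 ^ j : ℕ) : ℝ) + 1) * ((range (2 ^ j)).filter P).card
      ≤ (N / 2 ^ j + N / 2 ^ j) * ((range (2 ^ j)).filter P).card :=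
        mul_le_mul_of_nonneg_right (by linarith) h5
    _ = 2 * N * (((range (2 ^ j)).filter P).card / 2 ^ j) := by ring

/-- Markov's inequality for the square root of the multiplier -/
theorem markov (M : ℕ) (A : ℕ → Prop) (C : ℝ) (hC : 0 ≤ C)
    (hA : ∀ x, A x → 1 ≤ C * (Real.sqrt 3 ^ od M x / Real.sqrt 2 ^ M)) : pr M A ≤ C * rh ^ M := by
  classical
  rw [← prq_pow, prq_eq]
  push_cast
  rw [div_le_iff₀ (by positivity)]
  calc (((range (2 ^ M)).filter A).card : ℝ) = ∑ x ∈ (range (2 ^ M)).filter A, (1 : ℝ) := by simp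
    _ ≤ ∑ x ∈ (range (2 ^ M)).filter A, C * (Real.sqrt 3 ^ od M x / Real.sqrt 2 ^ M) :=
        sum_le_sum fun x hx => hA x (mem_filter.1 hx).2
    _ ≤ ∑ x ∈ range (2 ^ M), C * (Real.sqrt 3 ^ od M x / Real.sqrt 2 ^ M) :=
        sum_le_sum_of_subset_of_nonneg (filter_subset _ _) (fun x _ _ => by positivity)
    _ = C * ((1 + Real.sqrt 3) ^ M / Real.sqrt 2 ^ M) := by
        rw [← mul_sum, ← sum_div, sum_pow_od]
    _ = C * rh ^ M * 2 ^ M := by
        unfold rh
        rw [mul_assoc, ← div_pow, ← mul_pow]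
        congr 2
        field_simp

/-- the rate of the decay -/
noncomputable def be : ℝ := 0.97

noncomputable def ga : ℝ := rh / Real.sqrt be

theorem ga_pos : 0 < ga := div_pos rh_pos (Real.sqrt_pos.2 (by unfold be; norm_num))

theorem ga_lt : ga < 1 := by
  unfold ga
  rw [div_lt_one (Real.sqrt_pos.2 (by unfold be; norm_num))]
  apply Real.lt_sqrt_of_sq_lt
  have := rh_sq_le
  unfold be
  linarith

/-- large multiplier -/
def Lm (j x : ℕ) : Prop := be ^ j / 2 < 3 ^ od j x / 2 ^ j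

theorem Lm_per (j : ℕ) : Per (2 ^ j) (Lm j) := by
  intro x
  unfold Lm
  rw [od_mod j x le_rfl]

theorem pr_Lm (j : ℕ) : pr j (Lm j) ≤ Real.sqrt 2 * ga ^ j := by
  have hbe : (0 : ℝ) < be := by unfold be; norm_num
  have h := markov j (Lm j) (Real.sqrt 2 * (1 / Real.sqrt be) ^ j) (by positivity) (fun x hx => by
    unfold Lm at hx
    have h1 : Real.sqrt (be ^ j / 2) ≤ Real.sqrt (3 ^ od j x / 2 ^ j) := Real.sqrt_le_sqrt hx.le
    rw [Real.sqrt_div (by positivity), Real.sqrt_div (by positivity), ← sqrt_pow_eq _ hbe.le,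
      ← sqrt_pow_eq 3 (by norm_num), ← sqrt_pow_eq 2 (by norm_num)] at h1
    have h2 : (0 : ℝ) < Real.sqrt be ^ j := by positivity
    have h3 : (0 : ℝ) < Real.sqrt 2 := by positivity
    have h4 : Real.sqrt 2 * (1 / Real.sqrt be) ^ j * (Real.sqrt be ^ j / Real.sqrt 2) = 1 := by
      rw [one_div, inv_pow]
      field_simp
    calc (1 : ℝ) = Real.sqrt 2 * (1 / Real.sqrt be) ^ j * (Real.sqrt be ^ j / Real.sqrt 2) := h4.symm
      _ ≤ _ := mul_le_mul_of_nonneg_left h1 (by positivity))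
  refine h.trans (le_of_eq ?_)
  unfold ga
  rw [div_pow, div_pow, one_pow]
  ring

theorem iter_le (i : ℕ) {x : ℕ} (hx : 0 < x) : T^[i] x ≤ 2 ^ i * x := by
  induction i with
  | zero => simp
  | succ i ih =>
    rw [Function.iterate_succ_apply']
    refine (T_le _ (iter_pos hx i)).trans ?_
    rw [pow_succ]
    calc 2 * T^[i] x ≤ 2 * (2 ^ i * x) := Nat.mul_le_mul_left 2 ih
      _ = 2 ^ i * 2 * x := by ring

end Pool.Agent.V11311.SL
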