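import Pool.Agent.V11311.SL.A

/-! The sum of the trajectory, part B: almost all trajectories decay geometrically. -/

set_option autoImplicit false

namespace Pool.Agent.V11311.SL

open Finset Filter Topology Pool.Agent.V11311.FP Pool.Agent.V11311.RC

open Pool.Agent.V11311.DV (fl fl_card mem_fl)

open Pool.Agent.Helper894.Collatz (T od er od_add iter_eq T_even T_odd period sum_pow_od)

open Pool.Agent.H377R2 (iter_pos)

open Pool.Agent.H319R2.Lln (mu mu_lower mu_upper mu_eq)

open Pool.Agent.V11311.PD (Typ)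

open Pool.Agent.V11311.GT (typ_cardR mu_low)

open Pool.Agent.Results.MP_2d22f3_nt.CompleteTrajectories (Reaches)

/-- the trajectory decays geometrically from the time `K` on -/
def Gd (K n : ℕ) : Prop := ∃ t : ℕ, TST n t ∧ ∀ j, K ≤ j → j ≤ t → (T^[j] n : ℝ) ≤ be ^ j * n

/-- typical descent and total stopping time -/
def Ty (X : ℝ) (n : ℕ) : Prop := Typ (1 / 100) (X ^ (1 / 20 : ℝ)) n ∧ Real.sqrt X < n ∧
  ∃ t : ℕ, TST n t ∧ |(t : ℝ) - 2 / Real.log (4 / 3) * Real.log n| ≤ 1 / 100 * Real.log n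

theorem log_be : -(0.031 : ℝ) ≤ Real.log be := by
  have h := Real.one_sub_inv_le_log_of_pos (show (0 : ℝ) < be by unfold be; norm_num)
  unfold be at h ⊢
  norm_num at h ⊢
  linarith

/-- the late part of a typical trajectory -/
theorem late {N n : ℕ} (hN : (N : ℝ) ≤ (n : ℝ) ^ 2) (hn : 1 < n) (hTy : Typ (1 / 100) ((N : ℝ) ^ (1 / 20 : ℝ)) n)
    {t : ℕ} (ht : |(t : ℝ) - 2 / Real.log (4 / 3) * Real.log n| ≤ 1 / 100 * Real.log n) (hN1 : 1 < N) {j : ℕ}
    (hj : 1 / 10 * Real.log N ≤ j) (hnN : n ≤ N) (hjt : j ≤ t) : (T^[j] n : ℝ) ≤ be ^ j * n := by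
  have hn0 : 0 < n := by omega
  have hnR : (0 : ℝ) < n := by exact_mod_cast hn0
  have hNR : (0 : ℝ) < N := by exact_mod_cast (show 0 < N by omega)
  have hbe : (0 : ℝ) < be := by unfold be; norm_num
  have hL : 0 < Real.log n := Real.log_pos (by exact_mod_cast hn)
  have hLN : Real.log N ≤ 2 * Real.log n := by
    have := Real.log_le_log hNR hN
    rwa [Real.log_pow, Nat.cast_ofNat] at this
  have hLn : Real.log n ≤ Real.log N := Real.log_le_log hnR (by exact_mod_cast hnN)
  have hlb := log_be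
  have hmu := mu_low
  have hj0 : (0 : ℝ) ≤ j := Nat.cast_nonneg j
  have hpos : (0 : ℝ) < (T^[j] n : ℕ) := by exact_mod_cast iter_pos hn0 j
  rw [← Real.log_le_log_iff hpos (by positivity), Real.log_mul (by positivity) hnR.ne', Real.log_pow]
  obtain ⟨m0, hm1, hm2⟩ := hTy
  rcases Nat.lt_or_ge m0 j with h | h
  · -- after the typical descent
    have hκ : 2 / Real.log (4 / 3) = 1 / mu := by
      unfold mu
      field_simp
    rw [hκ] at ht
    have hmu0 : 0 < mu := by linarith
    have h1 := (abs_le.1 (hm2 m0 le_rfl)).1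
    have h2 : Real.log (T^[m0] n : ℕ) ≤ 1 / 20 * Real.log N := by
      have := Real.log_le_log (by exact_mod_cast iter_pos hn0 m0) hm1
      rwa [Real.log_rpow hNR] at this
    have h3 : 0.89 * Real.log n ≤ mu * m0 := by linarith
    have h4 : (t : ℝ) ≤ 1 / mu * Real.log n + 1 / 100 * Real.log n := by linarith [(abs_le.1 ht).2]
    have hjt' : (j : ℝ) ≤ t := by exact_mod_cast hjt
    have h5 : 1 / mu ≤ 7.05 := by
      rw [div_le_iff₀ hmu0]
      linarith
    have h5' : 1 / mu * Real.log n ≤ 7.05 * Real.log n := mul_le_mul_of_nonneg_right h5 hL.le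
    have h6 : mu * (j : ℝ) ≤ Real.log n + mu * (1 / 100 * Real.log n) := by
      have : mu * (j : ℝ) ≤ mu * (1 / mu * Real.log n + 1 / 100 * Real.log n) :=
        mul_le_mul_of_nonneg_left (hjt'.trans h4) hmu0.le
      have e : mu * (1 / mu * Real.log n + 1 / 100 * Real.log n) = Real.log n + mu * (1 / 100 * Real.log n) := by
        field_simp
      linarith
    have hmu_up : mu ≤ 0.144 := by
      have := mu_upper
      have := Real.log_two_lt_d9
      linarith
    have h7 : mu * ((j : ℝ) - m0) ≤ 0.1115 * Real.log n := by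
      have : mu * (1 / 100 * Real.log n) ≤ 0.144 * (1 / 100 * Real.log n) :=
        mul_le_mul_of_nonneg_right hmu_up (by positivity)
      linarith
    have h8 : (j : ℝ) - m0 ≤ 0.79 * Real.log n := by
      by_contra hcon
      push Not at hcon
      have : mu * (0.79 * Real.log n) ≤ mu * ((j : ℝ) - m0) := mul_le_mul_of_nonneg_left hcon.le hmu0.le
      have : 0.142 * (0.79 * Real.log n) ≤ mu * (0.79 * Real.log n) :=
        mul_le_mul_of_nonneg_right hmu (by positivity)
      linarith
    have h9 : Real.log (T^[j] n : ℕ) ≤ ((j : ℝ) - m0) * Real.log 2 + Real.log (T^[m0] n : ℕ) := by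
      have e : T^[j] n = T^[j - m0] (T^[m0] n) := by
        rw [← Function.iterate_add_apply, Nat.sub_add_cancel h.le]
      have g1 := iter_le (j - m0) (iter_pos hn0 m0)
      rw [← e] at g1
      have g2 : ((T^[j] n : ℕ) : ℝ) ≤ 2 ^ (j - m0) * (T^[m0] n : ℕ) := by exact_mod_cast g1
      have g3 := Real.log_le_log hpos g2
      have g4 : (0 : ℝ) < (T^[m0] n : ℕ) := by exact_mod_cast iter_pos hn0 m0
      rw [Real.log_mul (by positivity) g4.ne', Real.log_pow, Nat.cast_sub h.le] at g3
      exact g3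
    have h10 : ((j : ℝ) - m0) * Real.log 2 ≤ 0.79 * Real.log n * 0.6932 := by
      have g1 : Real.log 2 ≤ 0.6932 := by have := Real.log_two_lt_d9; linarith
      have g2 : (0 : ℝ) ≤ (j : ℝ) - m0 := by
        have : (m0 : ℝ) ≤ j := by exact_mod_cast h.le
        linarith
      have g3 : 0 < Real.log 2 := Real.log_pos (by norm_num)
      calc ((j : ℝ) - m0) * Real.log 2 ≤ 0.79 * Real.log n * Real.log 2 := mul_le_mul_of_nonneg_right h8 g3.le
        _ ≤ 0.79 * Real.log n * 0.6932 := mul_le_mul_of_nonneg_left g1 (by positivity)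
    have h11 : -(0.031 : ℝ) * j ≤ j * Real.log be := by nlinarith
    have h12 : (j : ℝ) ≤ 7.06 * Real.log n := by linarith
    nlinarith
  · -- during the typical descent
    have h1 := (abs_le.1 (hm2 j h)).2
    have h2 : 0.111 * (1 / 10 * Real.log N) ≤ (mu - 0.031) * j := by
      have g1 : (0.111 : ℝ) ≤ mu - 0.031 := by linarith
      calc 0.111 * (1 / 10 * Real.log N) ≤ 0.111 * (j : ℝ) := mul_le_mul_of_nonneg_left hj (by norm_num)
        _ ≤ _ := mul_le_mul_of_nonneg_right g1 hj0
    have h3 : -(0.031 : ℝ) * j ≤ j * Real.log be := by nlinarith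
    nlinarith

end Pool.Agent.V11311.SL
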