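import Pool.Agent.V11311.SL.B

/-! The sum of the trajectory, part C: the exceptional integers. -/

set_option autoImplicit false

namespace Pool.Agent.V11311.SL

open Finset Filter Topology Pool.Agent.V11311.FP Pool.Agent.V11311.RC

open Pool.Agent.V11311.DV (fl fl_card mem_fl)

open Pool.Agent.Helper894.Collatz (T od er od_add iter_eq T_even T_odd period sum_pow_od)

open Pool.Agent.H377R2 (iter_pos)

open Pool.Agent.H319R2.Lln (mu mu_lower mu_upper mu_eq)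

open Pool.Agent.V11311.PD (Typ)

open Pool.Agent.V11311.GT (typ_cardR mu_low)

open Pool.Agent.Results.MP_2d22f3_nt.CompleteTrajectories (Reaches)

/-- normal order of the total stopping time -/
def NO (n : ℕ) : Prop := ∃ t : ℕ, TST n t ∧ |(t : ℝ) - 2 / Real.log (4 / 3) * Real.log n| ≤ 1 / 100 * Real.log n

theorem NO_dens {δ : ℝ} (hQ : HasD Reaches δ) (hn' : ∀ (M : ℕ) (η : ℝ), 0 < η → HasD (Nrm M η) δ) : HasD NO δ := by
  refine sandwich (hn' 0 (1 / 100) (by norm_num)) hQ 0 ?_ ?_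
  · rintro n _ _ ⟨t, ht, h1, _⟩
    exact ⟨t, ht, h1⟩
  · rintro n _ ⟨t, ht, _⟩
    exact (reach_iff n).2 ⟨t, ht⟩

theorem early {J j n : ℕ} (hj : j ≤ J) (hJ : 2 * (J * 4 ^ J) ≤ n) (h : ¬ Lm j n) : (T^[j] n : ℝ) ≤ be ^ j * n := by
  have hbe : (0 : ℝ) < be := by unfold be; norm_num
  unfold Lm at h
  push Not at h
  have h1 := iter_eq j n
  have h2 : (2 : ℝ) ^ j * (T^[j] n : ℕ) = 3 ^ od j n * n + er j n := by exact_mod_cast h1
  have h3 : (er j n : ℝ) ≤ n / 2 := by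
    have g1 := er_le j n
    have g2 : j * 4 ^ j ≤ J * 4 ^ J := Nat.mul_le_mul hj (Nat.pow_le_pow_right (by norm_num) hj)
    have g3 : 2 * er j n ≤ n := by omega
    have g4 : 2 * (er j n : ℝ) ≤ n := by exact_mod_cast g3
    linarith
  have h4 : (3 : ℝ) ^ od j n ≤ be ^ j / 2 * 2 ^ j := by
    rwa [div_le_iff₀ (by positivity)] at h
  have h5 : (1 : ℝ) ≤ be ^ j * 2 ^ j := by
    rw [← mul_pow]
    apply one_le_pow₀
    unfold be
    norm_num
  have hn : (0 : ℝ) ≤ n := Nat.cast_nonneg n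
  have h6 : (2 : ℝ) ^ j * (T^[j] n : ℕ) ≤ 2 ^ j * (be ^ j * n) := by
    rw [h2]
    have g1 : (3 : ℝ) ^ od j n * n ≤ be ^ j / 2 * 2 ^ j * n := mul_le_mul_of_nonneg_right h4 hn
    have g2 : (n : ℝ) ≤ be ^ j * 2 ^ j * n := by nlinarith
    nlinarith
  exact le_of_mul_le_mul_left h6 (by positivity)

/-- the last index of the early part -/
noncomputable def JJ (N : ℕ) : ℕ := ⌊1 / 10 * Real.log N⌋₊

theorem JJ_ev : ∀ᶠ N : ℕ in atTop, 2 ^ JJ N ≤ N ∧ (2 * (JJ N * 4 ^ JJ N)) ^ 2 ≤ N := by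
  have e1 : ∀ᶠ X : ℝ in atTop, ‖Real.log X‖ ≤ 1 * ‖X ^ (1 / 10 : ℝ)‖ :=
    (isLittleO_log_rpow_atTop (by norm_num : (0 : ℝ) < 1 / 10)).bound one_pos
  have e2 : ∀ᶠ X : ℝ in atTop, (4 : ℝ) ≤ X ^ (1 / 10 : ℝ) :=
    (tendsto_rpow_atTop (by norm_num : (0 : ℝ) < 1 / 10)).eventually (eventually_ge_atTop _)
  have e := tendsto_natCast_atTop_atTop.eventually (e1.and (e2.and (eventually_ge_atTop (3 : ℝ))))
  filter_upwards [e] with N hN
  obtain ⟨h1, h2, h3⟩ := hN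
  have hN0 : (0 : ℝ) < N := by linarith
  have hL : 0 < Real.log N := Real.log_pos (by linarith)
  rw [Real.norm_of_nonneg hL.le, Real.norm_of_nonneg (by positivity), one_mul] at h1
  have hJ : (JJ N : ℝ) ≤ 1 / 10 * Real.log N := Nat.floor_le (by positivity)
  have hJ0 : (0 : ℝ) ≤ JJ N := Nat.cast_nonneg _
  have hl2 : Real.log 2 < 0.6932 := by have := Real.log_two_lt_d9; linarith
  have h4 : (4 : ℝ) ^ JJ N ≤ (N : ℝ) ^ (15 / 100 : ℝ) := by
    have g1 : (4 : ℝ) ^ JJ N = Real.exp (JJ N * (2 * Real.log 2)) := by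
      rw [Real.exp_nat_mul, show (2 : ℝ) * Real.log 2 = Real.log 4 by
        rw [show (4 : ℝ) = 2 ^ 2 by norm_num, Real.log_pow]; push_cast; ring, Real.exp_log (by norm_num)]
    rw [g1, Real.rpow_def_of_pos hN0]
    apply Real.exp_le_exp.2
    have hl2' : 0 < Real.log 2 := Real.log_pos (by norm_num)
    have g2 : (JJ N : ℝ) * (2 * Real.log 2) ≤ 1 / 10 * Real.log N * (2 * Real.log 2) :=
      mul_le_mul_of_nonneg_right hJ (by positivity)
    have g3 : 1 / 10 * Real.log N * (2 * Real.log 2) ≤ 1 / 10 * Real.log N * 1.3864 :=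
      mul_le_mul_of_nonneg_left (by linarith) (by positivity)
    linarith
  constructor
  · have g1 : (2 : ℝ) ^ JJ N ≤ 4 ^ JJ N := pow_le_pow_left₀ (by norm_num) (by norm_num) _
    have g2 : (N : ℝ) ^ (15 / 100 : ℝ) ≤ N := by
      calc (N : ℝ) ^ (15 / 100 : ℝ) ≤ (N : ℝ) ^ (1 : ℝ) :=
            Real.rpow_le_rpow_of_exponent_le (by linarith) (by norm_num)
        _ = N := Real.rpow_one _
    exact_mod_cast (g1.trans h4).trans g2
  · have g1 : ((2 * (JJ N * 4 ^ JJ N) : ℕ) : ℝ) ≤ (N : ℝ) ^ (1 / 2 : ℝ) := by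
      push_cast
      have g2 : (JJ N : ℝ) ≤ (N : ℝ) ^ (1 / 10 : ℝ) := by linarith
      have g3 : (2 : ℝ) ≤ (N : ℝ) ^ (1 / 10 : ℝ) := by linarith
      calc (2 : ℝ) * (JJ N * 4 ^ JJ N) ≤ (N : ℝ) ^ (1 / 10 : ℝ) * ((N : ℝ) ^ (1 / 10 : ℝ) * (N : ℝ) ^ (15 / 100 : ℝ)) :=
            mul_le_mul g3 (mul_le_mul g2 h4 (by positivity) (by positivity)) (by positivity) (by positivity)
        _ = (N : ℝ) ^ (35 / 100 : ℝ) := by
            rw [← Real.rpow_add hN0, ← Real.rpow_add hN0]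
            norm_num
        _ ≤ (N : ℝ) ^ (1 / 2 : ℝ) := Real.rpow_le_rpow_of_exponent_le (by linarith) (by norm_num)
    have g2 : (((2 * (JJ N * 4 ^ JJ N)) ^ 2 : ℕ) : ℝ) ≤ N := by
      rw [Nat.cast_pow]
      calc (((2 * (JJ N * 4 ^ JJ N) : ℕ) : ℝ)) ^ 2 ≤ ((N : ℝ) ^ (1 / 2 : ℝ)) ^ 2 :=
            pow_le_pow_left₀ (Nat.cast_nonneg _) g1 2
        _ = N := by
            rw [← Real.rpow_natCast, ← Real.rpow_mul hN0.le]
            norm_num
    exact_mod_cast g2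

theorem Gd_of {K N n : ℕ} (hN1 : 1 < N) (hnN : n ≤ N) (hn2 : N < n ^ 2)
    (hJ : (2 * (JJ N * 4 ^ JJ N)) ^ 2 ≤ N) (hNO : NO n) (hTy : Typ (1 / 100) ((N : ℝ) ^ (1 / 20 : ℝ)) n)
    (hLm : ∀ j ∈ Icc K (JJ N), ¬ Lm j n) : Gd K n := by
  have hn : 1 < n := by
    by_contra hcon
    have : n ^ 2 ≤ 1 ^ 2 := Nat.pow_le_pow_left (by omega) 2
    omega
  obtain ⟨t, ht, ht1⟩ := hNO
  refine ⟨t, ht, fun j hKj hjt => ?_⟩
  rcases le_or_gt (1 / 10 * Real.log N) j with h | h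
  · exact late (by exact_mod_cast hn2.le) hn hTy ht1 hN1 h hnN hjt
  · have hjJ : j ≤ JJ N := Nat.le_floor h.le
    apply early hjJ _ (hLm j (mem_Icc.2 ⟨hKj, hjJ⟩))
    have h1 : (2 * (JJ N * 4 ^ JJ N)) ^ 2 < n ^ 2 := by omega
    exact (lt_of_pow_lt_pow_left₀ 2 (Nat.zero_le _) h1).le

theorem decay_ev (ε : ℝ) (hε : 0 < ε) : ∃ K0 : ℕ, ∀ K : ℕ, K0 ≤ K → ∀ᶠ N : ℕ in atTop,
    (cN (fun n => Reaches n ∧ ¬ Gd K n) N : ℝ) ≤ ε * N := by
  classical
  obtain ⟨δ, -, -, -, hQ, hn'⟩ := nrm_dens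
  have hNO := NO_dens hQ hn'
  -- the choice of `K`
  have hga : Tendsto (fun K : ℕ => 2 * Real.sqrt 2 * ga ^ K / (1 - ga)) atTop (𝓝 0) := by
    have h1 := (tendsto_pow_atTop_nhds_zero_of_lt_one ga_pos.le ga_lt).const_mul (2 * Real.sqrt 2 / (1 - ga))
    rw [mul_zero] at h1
    refine h1.congr fun K => ?_
    ring
  obtain ⟨K0, hK0⟩ := eventually_atTop.1 (hga.eventually (gt_mem_nhds (show (0 : ℝ) < ε / 4 by positivity)))
  refine ⟨K0, fun K hK => ?_⟩
  have hgK := hK0 K hK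
  -- the exceptional integers
  have h1 : ∀ᶠ N : ℕ in atTop, (cN (fun n => Reaches n ∧ ¬ NO n) N : ℝ) ≤ ε / 4 * N := by
    have h2 : Tendsto (fun N : ℕ => (cN (fun n => Reaches n ∧ ¬ NO n) N : ℝ) / N) atTop (𝓝 0) := by
      have h3 := hQ.sub hNO
      rw [sub_self] at h3
      refine h3.congr fun N => ?_
      rw [← sub_div]
      congr 1
      rw [sub_eq_iff_eq_add, ← Nat.cast_add]
      congr 1
      rw [← fl_card, ← fl_card, ← fl_card, ← card_union_of_disjoint]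
      · congr 1
        ext n
        rw [mem_union, mem_fl, mem_fl, mem_fl]
        constructor
        · rintro ⟨g1, g2⟩
          by_cases g3 : NO n
          · exact Or.inr ⟨g1, g3⟩
          · exact Or.inl ⟨g1, g2, g3⟩
        · rintro (⟨g1, g2, g3⟩ | ⟨g1, g2⟩)
          · exact ⟨g1, g2⟩
          · obtain ⟨t, ht, _⟩ := g2
            exact ⟨g1, (reach_iff n).2 ⟨t, ht⟩⟩
      · rw [disjoint_left]
        intro n g1 g2
        rw [mem_fl] at g1 g2
        exact g1.2.2 g2.2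
    filter_upwards [h2.eventually (gt_mem_nhds (show (0 : ℝ) < ε / 4 by positivity)), eventually_gt_atTop 0] with N hN hN0
    have hN0' : (0 : ℝ) < N := by exact_mod_cast hN0
    rw [div_lt_iff₀ hN0'] at hN
    exact hN.le
  have h2 := tendsto_natCast_atTop_atTop.eventually (typ_cardR (1 / 100) 1 (1 / 20) (by norm_num) (by norm_num) (by norm_num))
  have h3 : ∀ᶠ N : ℕ in atTop, 2 * ((N : ℝ) / Real.log N ^ (1 : ℝ)) ≤ ε / 4 * N := by
    have h4 : ∀ᶠ N : ℕ in atTop, 8 / ε ≤ Real.log N :=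
      (Real.tendsto_log_atTop.comp tendsto_natCast_atTop_atTop).eventually (eventually_ge_atTop _)
    filter_upwards [h4] with N hN
    have hL : 0 < Real.log N := lt_of_lt_of_le (by positivity) hN
    rw [Real.rpow_one, ← mul_div_assoc, div_le_iff₀ hL]
    rw [div_le_iff₀ hε] at hN
    have hN0 : (0 : ℝ) ≤ N := Nat.cast_nonneg N
    nlinarith
  have h4 : ∀ᶠ N : ℕ in atTop, (Nat.sqrt N : ℝ) ≤ ε / 4 * N := by
    have h5 : Tendsto (fun N : ℕ => Real.sqrt N) atTop atTop :=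
      Real.tendsto_sqrt_atTop.comp tendsto_natCast_atTop_atTop
    filter_upwards [h5.eventually (eventually_ge_atTop (4 / ε))] with N hN
    have h6 : (Nat.sqrt N : ℝ) ≤ Real.sqrt N := Real.nat_sqrt_le_real_sqrt
    have h7 : Real.sqrt N * Real.sqrt N = N := Real.mul_self_sqrt (Nat.cast_nonneg N)
    have h8 : 0 ≤ Real.sqrt N := Real.sqrt_nonneg _
    rw [div_le_iff₀ hε] at hN
    nlinarith
  filter_upwards [h1, h2, h3, h4, JJ_ev, eventually_gt_atTop 1] with N g1 g2 g3 g4 g5 g6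
  have hN0 : (0 : ℝ) ≤ N := Nat.cast_nonneg N
  have hsub : fl (fun n => Reaches n ∧ ¬ Gd K n) N ⊆
      (Icc 1 (Nat.sqrt N)) ∪ (fl (fun n => Reaches n ∧ ¬ NO n) N ∪
      ((Icc 1 N).filter (fun n => ¬ Typ (1 / 100) ((N : ℝ) ^ (1 / 20 : ℝ)) n) ∪
      (Icc K (JJ N)).biUnion fun j => fl (Lm j) N)) := by
    intro n hn
    rw [mem_fl] at hn
    rw [mem_union, mem_union, mem_union, mem_Icc, mem_fl, mem_filter, mem_Icc, mem_biUnion]
    by_contra hcon
    push Not at hcon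
    obtain ⟨c1, c2, c3, c4⟩ := hcon
    apply hn.2.2
    have hn2 : N < n ^ 2 := by
      have := c1 hn.1.1
      rw [Nat.sqrt_lt'] at this
      exact this
    refine Gd_of g6 hn.1.2 hn2 g5.2 (c2 hn.1 hn.2.1) (c3 hn.1) fun j hj hL => ?_
    exact absurd (mem_fl.2 ⟨hn.1, hL⟩) (c4 j hj)
  have hcard := card_le_card hsub
  rw [fl_card] at hcard
  have k1 := hcard.trans ((card_union_le _ _).trans (Nat.add_le_add_left ((card_union_le _ _).trans
    (Nat.add_le_add_left (card_union_le _ _) _)) _))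
  rw [Nat.card_Icc, Nat.add_sub_cancel, fl_card] at k1
  have k2 : (cN (fun n => Reaches n ∧ ¬ Gd K n) N : ℝ) ≤ (Nat.sqrt N : ℝ) + ((cN (fun n => Reaches n ∧ ¬ NO n) N : ℝ) +
      ((((Icc 1 N).filter (fun n => ¬ Typ (1 / 100) ((N : ℝ) ^ (1 / 20 : ℝ)) n)).card : ℝ) +
      (((Icc K (JJ N)).biUnion fun j => fl (Lm j) N).card : ℝ))) := by exact_mod_cast k1
  have k3 : (((Icc 1 N).filter (fun n => ¬ Typ (1 / 100) ((N : ℝ) ^ (1 / 20 : ℝ)) n)).card : ℝ) ≤ ε / 4 * N := by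
    refine (g2 _ fun n hn => ?_).trans g3
    rw [mem_filter, mem_Icc] at hn
    exact ⟨hn.1.1, by exact_mod_cast hn.1.2, hn.2⟩
  have k4 : (((Icc K (JJ N)).biUnion fun j => fl (Lm j) N).card : ℝ) ≤ ε / 4 * N := by
    have k5 : (((Icc K (JJ N)).biUnion fun j => fl (Lm j) N).card : ℝ) ≤ ∑ j ∈ Icc K (JJ N), (cN (Lm j) N : ℝ) := by
      have := card_biUnion_le (s := Icc K (JJ N)) (t := fun j => fl (Lm j) N)
      simp only [fl_card] at this
      exact_mod_cast this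
    have k6 : ∀ j ∈ Icc K (JJ N), (cN (Lm j) N : ℝ) ≤ 2 * Real.sqrt 2 * N * ga ^ j := by
      intro j hj
      rw [mem_Icc] at hj
      have h5 : 2 ^ j ≤ N := (Nat.pow_le_pow_right (by norm_num) hj.2).trans g5.1
      refine (cN_rare (Lm j) (Lm_per j) h5).trans ?_
      calc 2 * (N : ℝ) * pr j (Lm j) ≤ 2 * N * (Real.sqrt 2 * ga ^ j) :=
            mul_le_mul_of_nonneg_left (pr_Lm j) (by positivity)
        _ = _ := by ring
    have k7 : ∑ j ∈ Icc K (JJ N), ga ^ j ≤ ga ^ K / (1 - ga) := by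
      have h5 : ∑ j ∈ Icc K (JJ N), ga ^ j ≤ ∑ j ∈ Ico K (JJ N + 1 + K), ga ^ j := by
        apply sum_le_sum_of_subset_of_nonneg
        · intro j hj
          rw [mem_Icc] at hj
          rw [mem_Ico]
          omega
        · intro j _ _
          exact pow_nonneg ga_pos.le _
      refine h5.trans ?_
      rw [geom_sum_Ico' ga_lt.ne (by omega)]
      apply div_le_div_of_nonneg_right _ (by linarith [ga_lt])
      have := pow_nonneg ga_pos.le (JJ N + 1 + K)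
      linarith
    refine (k5.trans (sum_le_sum k6)).trans ?_
    rw [← mul_sum]
    calc 2 * Real.sqrt 2 * N * ∑ j ∈ Icc K (JJ N), ga ^ j ≤ 2 * Real.sqrt 2 * N * (ga ^ K / (1 - ga)) :=
          mul_le_mul_of_nonneg_left k7 (by positivity)
      _ = 2 * Real.sqrt 2 * ga ^ K / (1 - ga) * N := by ring
      _ ≤ ε / 4 * N := mul_le_mul_of_nonneg_right hgK.le hN0
  linarith

end Pool.Agent.V11311.SL
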