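import Mathlib

/-! The sum of the trajectory, part D: solutions of a functional equation are continuous. -/

set_option autoImplicit false

namespace Pool.Agent.V11311.SL

open Filter Topology

/-- a distribution function which satisfies the functional equation is continuous -/
theorem cont_of_eq (F : ℝ → ℝ) (hm : Monotone F) (h0 : ∀ u < 1, F u = 0) (hle : ∀ u, F u ≤ 1)
    (h1 : Tendsto F atTop (𝓝 1)) {a b : ℝ} (ha : 1 < a) (hb : 0 < b) (hab : b < a)
    (heq : ∀ u, F u = 1 / 2 * F ((u - 1) * a) + 1 / 2 * F ((u - 1) * b)) : Continuous F := by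
  have hF0 : ∀ u, 0 ≤ F u := by
    intro u
    rw [← h0 (min u 0) (lt_of_le_of_lt (min_le_right _ _) one_pos)]
    exact hm (min_le_left _ _)
  have hJmono : ∀ u v η η' : ℝ, u - η ≤ v - η' → v + η' ≤ u + η →
      F (v + η') - F (v - η') ≤ F (u + η) - F (u - η) := by
    intro u v η η' g1 g2
    have := hm g1
    have := hm g2
    linarith
  -- it suffices to control the jumps
  suffices hsuff : ∀ ε : ℝ, 0 < ε → ∃ η : ℝ, 0 < η ∧ ∀ u, F (u + η) - F (u - η) ≤ ε by
    rw [Metric.continuous_iff]
    intro u ε hε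
    obtain ⟨η, hη, h⟩ := hsuff (ε / 2) (by positivity)
    refine ⟨η, hη, fun v hv => ?_⟩
    rw [Real.dist_eq, abs_lt] at hv
    have g1 := h u
    have g2 : F v ≤ F (u + η) := hm (by linarith)
    have g3 : F (u - η) ≤ F v := hm (by linarith)
    have g4 : F u ≤ F (u + η) := hm (by linarith)
    have g5 : F (u - η) ≤ F u := hm (by linarith)
    rw [Real.dist_eq, abs_lt]
    constructor <;> linarith
  by_contra hcon
  push Not at hcon
  obtain ⟨ε0, hε0, hcon⟩ := hcon
  -- the largest jump
  set C : Set ℝ := {c | ∀ η : ℝ, 0 < η → ∃ u, c ≤ F (u + η) - F (u - η)} with hC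
  have hCne : ε0 ∈ C := fun η hη => by
    obtain ⟨u, hu⟩ := hcon η hη
    exact ⟨u, hu.le⟩
  have hCb : BddAbove C := ⟨1, fun c hc => by
    obtain ⟨u, hu⟩ := hc 1 one_pos
    have := hle (u + 1)
    have := hF0 (u - 1)
    linarith⟩
  set c0 := sSup C with hc0
  have hc0pos : 0 < c0 := hε0.trans_le (le_csSup hCb hCne)
  have hlow : ∀ c < c0, ∀ η : ℝ, 0 < η → ∃ u, c ≤ F (u + η) - F (u - η) := by
    intro c hc η hη
    obtain ⟨c', hc', hcc'⟩ := exists_lt_of_lt_csSup ⟨ε0, hCne⟩ hc
    obtain ⟨u, hu⟩ := hc' η hη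
    exact ⟨u, hcc'.le.trans hu⟩
  have hupp : ∀ c, c0 < c → ∃ η : ℝ, 0 < η ∧ ∀ u, F (u + η) - F (u - η) < c := by
    intro c hc
    by_contra h2
    push Not at h2
    exact absurd (le_csSup hCb (show c ∈ C from h2)) (not_le.2 hc)
  -- far away there are no jumps
  obtain ⟨U, hU⟩ := eventually_atTop.1 (h1.eventually (lt_mem_nhds (show 1 - c0 / 4 < 1 by linarith)))
  set M : Set ℝ := {u | ∀ η : ℝ, 0 < η → c0 ≤ F (u + η) - F (u - η)} with hM
  have hMne : ∃ u, u ∈ M := by
    have hseq : ∀ k : ℕ, ∃ u, c0 - c0 / 2 * (1 / ((k : ℝ) + 1)) ≤ F (u + 1 / ((k : ℝ) + 1)) - F (u - 1 / ((k : ℝ) + 1)) := by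
      intro k
      have hk : (0 : ℝ) < 1 / ((k : ℝ) + 1) := by positivity
      exact hlow _ (by nlinarith) _ hk
    choose u hu using hseq
    have hk1 : ∀ k : ℕ, (1 : ℝ) / ((k : ℝ) + 1) ≤ 1 := by
      intro k
      rw [div_le_one (by positivity)]
      have : (0 : ℝ) ≤ k := Nat.cast_nonneg k
      linarith
    have hk0 : ∀ k : ℕ, (0 : ℝ) < 1 / ((k : ℝ) + 1) := fun k => by positivity
    have hmem : ∀ k, u k ∈ Set.Icc (0 : ℝ) (U + 1) := by
      intro k
      have g0 := hu k
      have g1 := hk1 k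
      have g2 := hk0 k
      have g3 : c0 / 2 ≤ c0 - c0 / 2 * (1 / ((k : ℝ) + 1)) := by nlinarith
      constructor
      · by_contra h2
        push Not at h2
        have g4 : F (u k + 1 / ((k : ℝ) + 1)) = 0 := h0 _ (by linarith)
        have g5 := hF0 (u k - 1 / ((k : ℝ) + 1))
        linarith
      · by_contra h2
        push Not at h2
        have g4 := hU (u k - 1 / ((k : ℝ) + 1)) (by linarith)
        have g5 := hle (u k + 1 / ((k : ℝ) + 1))
        linarith
    obtain ⟨z, -, φ, hφ, hz⟩ := isCompact_Icc.tendsto_subseq hmem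
    refine ⟨z, fun η hη => ?_⟩
    have hlim : Tendsto (fun k : ℕ => (1 : ℝ) / ((φ k : ℝ) + 1)) atTop (𝓝 0) :=
      tendsto_one_div_add_atTop_nhds_zero_nat.comp hφ.tendsto_atTop
    have hlim2 : Tendsto (fun k : ℕ => c0 - c0 / 2 * (1 / ((φ k : ℝ) + 1))) atTop (𝓝 c0) := by
      have := (hlim.const_mul (c0 / 2)).const_sub c0
      rwa [mul_zero, sub_zero] at this
    refine le_of_tendsto hlim2 ?_
    have e1 := hlim.eventually (gt_mem_nhds (show (0 : ℝ) < η / 2 by positivity))
    have e2 := hz.eventually (Metric.ball_mem_nhds z (show (0 : ℝ) < η / 2 by positivity))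
    filter_upwards [e1, e2] with k g1 g2
    rw [Real.dist_eq, abs_lt] at g2
    simp only [Function.comp_apply] at g2
    exact (hu (φ k)).trans (hJmono z (u (φ k)) η _ (by linarith) (by linarith))
  -- the set of the largest jumps is invariant
  have hstep : ∀ a' : ℝ, 0 < a' → ∀ b' : ℝ, 0 < b' →
      (∀ u, F u = 1 / 2 * F ((u - 1) * a') + 1 / 2 * F ((u - 1) * b')) → ∀ u ∈ M, (u - 1) * a' ∈ M := by
    intro a' ha' b' hb' heq' u hu η1 hη1
    by_contra h2
    push Not at h2
    set g := c0 - (F ((u - 1) * a' + η1) - F ((u - 1) * a' - η1)) with hg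
    have hg0 : 0 < g := by linarith
    obtain ⟨η2, hη2, h3⟩ := hupp (c0 + g / 2) (by linarith)
    set η := min (η1 / a') (η2 / b') with hη
    have hη0 : 0 < η := lt_min (by positivity) (by positivity)
    have e1 : η * a' ≤ η1 := by
      have : η ≤ η1 / a' := min_le_left _ _
      rwa [le_div_iff₀ ha'] at this
    have e2 : η * b' ≤ η2 := by
      have : η ≤ η2 / b' := min_le_right _ _
      rwa [le_div_iff₀ hb'] at this
    have g1 := hu η hη0
    rw [heq' (u + η), heq' (u - η)] at g1
    have g2 : F ((u + η - 1) * a') ≤ F ((u - 1) * a' + η1) := hm (by nlinarith)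
    have g3 : F ((u - 1) * a' - η1) ≤ F ((u - η - 1) * a') := hm (by nlinarith)
    have g4 : F ((u + η - 1) * b') ≤ F ((u - 1) * b' + η2) := hm (by nlinarith)
    have g5 : F ((u - 1) * b' - η2) ≤ F ((u - η - 1) * b') := hm (by nlinarith)
    have g6 := h3 ((u - 1) * b')
    linarith
  have hMa : ∀ u ∈ M, (u - 1) * a ∈ M := hstep a (by linarith) b hb heq
  have hMb : ∀ u ∈ M, (u - 1) * b ∈ M := hstep b hb a (by linarith) (fun u => by rw [heq u]; ring)
  have hMbd : ∀ u ∈ M, |u| ≤ |U| + 1 := by
    intro u hu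
    have g1 : 0 ≤ u := by
      by_contra h2
      push Not at h2
      have g2 := hu (1 / 2) (by norm_num)
      have g3 : F (u + 1 / 2) = 0 := h0 _ (by linarith)
      have g4 := hF0 (u - 1 / 2)
      linarith
    have g2 : u ≤ U + 1 := by
      by_contra h2
      push Not at h2
      have g3 := hU (u - 1) (by linarith)
      have g4 := hu 1 one_pos
      have g5 := hle (u + 1)
      linarith
    rw [abs_of_nonneg g1]
    have := le_abs_self U
    linarith
  -- so it has at most one element
  set x := a / (a - 1) with hx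
  have ha1 : 0 < a - 1 := by linarith
  have hxe : (x - 1) * a = x := by
    rw [hx]
    field_simp
    ring
  have huniq : ∀ u ∈ M, u = x := by
    intro u hu
    by_contra hne
    have hit : ∀ k : ℕ, x + a ^ k * (u - x) ∈ M := by
      intro k
      induction k with
      | zero => simpa using hu
      | succ k ih =>
        have := hMa _ ih
        have e : (x + a ^ k * (u - x) - 1) * a = x + a ^ (k + 1) * (u - x) := by
          rw [pow_succ]
          linear_combination hxe
        rwa [e] at this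
    have hun : 0 < |u - x| := abs_pos.2 (sub_ne_zero.2 hne)
    obtain ⟨k, hk⟩ := pow_unbounded_of_one_lt ((|U| + 1 + |x|) / |u - x|) ha
    rw [div_lt_iff₀ hun] at hk
    have g1 := hMbd _ (hit k)
    have g2 : |a ^ k * (u - x)| ≤ |x + a ^ k * (u - x)| + |x| := by
      have := abs_sub (x + a ^ k * (u - x)) x
      rwa [add_sub_cancel_left] at this
    rw [abs_mul, abs_of_pos (by positivity : (0 : ℝ) < a ^ k)] at g2
    linarith
  obtain ⟨u, hu⟩ := hMne
  have hux := huniq u hu
  rw [hux] at hu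
  have g1 := huniq _ (hMb _ hu)
  have g2 : (x - 1) * (a - b) = 0 := by linear_combination hxe - g1
  have g3 : x - 1 = 1 / (a - 1) := by
    rw [hx]
    field_simp
    ring
  rw [g3] at g2
  have g4 : 0 < 1 / (a - 1) * (a - b) := mul_pos (by positivity) (by linarith)
  linarith

end Pool.Agent.V11311.SL
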