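import Pool.Agent.V11311.SL.C
import Pool.Agent.V11311.SL.D

/-! The sum of the trajectory, part E: the limit law. -/

set_option autoImplicit false

namespace Pool.Agent.V11311.SL

open Finset Filter Topology Pool.Agent.V11311.FP Pool.Agent.V11311.RC

open Pool.Agent.Helper894.Collatz (T od er od_add iter_eq T_even T_odd period sum_pow_od)

/-- the sum of the `p`-th powers of the multipliers -/
noncomputable def wp (p : ℝ) (K x : ℕ) : ℝ := ∑ j ∈ range (K + 1), ((3 : ℝ) ^ od j x / 2 ^ j) ^ p

theorem wp_per (p u : ℝ) (K : ℕ) : Per (2 ^ K) (fun x => wp p K x ≤ u) := by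
  intro x
  have : wp p K (x % 2 ^ K) = wp p K x := by
    unfold wp
    apply sum_congr rfl
    intro j hj
    rw [mem_range] at hj
    rw [od_mod K x (by omega)]
  simp only [this]

/-- the distribution function of the sum -/
noncomputable def FK (p : ℝ) (K : ℕ) (u : ℝ) : ℝ := prq (2 ^ K) (fun x => wp p K x ≤ u)

theorem prq_mono {Q : ℕ} {A B : ℕ → Prop} (h : ∀ x, A x → B x) : prq Q A ≤ prq Q B := by
  classical
  rw [prq_eq, prq_eq]
  apply div_le_div_of_nonneg_right _ (Nat.cast_nonneg Q)
  exact_mod_cast card_le_card fun x hx => by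
    rw [mem_filter] at hx ⊢
    exact ⟨hx.1, h x hx.2⟩

theorem prq_true {Q : ℕ} (hQ : 0 < Q) : prq Q (fun _ => True) = 1 := by
  rw [prq_eq, filter_true, card_range]
  exact div_self (by positivity)

theorem prq_succ {j : ℕ} {A : ℕ → Prop} (hA : Per (2 ^ j) A) : prq (2 ^ (j + 1)) A = prq (2 ^ j) A := by
  have h1 := prod_prq (j := j) (q := 2) (B := fun _ => True) (by norm_num) (by norm_num) hA (fun _ => Iff.rfl)
  rw [prq_true (by norm_num), mul_one, ← pow_succ] at h1
  simp only [and_true] at h1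
  exact h1

theorem Per.succ {j : ℕ} {A : ℕ → Prop} (hA : Per (2 ^ j) A) : Per (2 ^ (j + 1)) A := by
  intro x
  rw [← hA (x % 2 ^ (j + 1)), pow_succ, Nat.mod_mul_right_mod, hA]

theorem prq_lift {j K : ℕ} (h : j ≤ K) {A : ℕ → Prop} (hA : Per (2 ^ j) A) :
    Per (2 ^ K) A ∧ prq (2 ^ K) A = prq (2 ^ j) A := by
  induction K, h using Nat.le_induction with
  | base => exact ⟨hA, rfl⟩
  | succ K _ ih => exact ⟨Per.succ ih.1, (prq_succ ih.1).trans ih.2⟩

theorem FK_anti (p u : ℝ) : Antitone fun K => FK p K u := by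
  apply antitone_nat_of_succ_le
  intro K
  unfold FK
  rw [← prq_succ (wp_per p u K)]
  apply prq_mono
  intro x hx
  refine le_trans ?_ hx
  unfold wp
  rw [sum_range_succ _ (K + 1)]
  have : (0 : ℝ) ≤ ((3 : ℝ) ^ od (K + 1) x / 2 ^ (K + 1)) ^ p := by positivity
  linarith

theorem FK_mono (p : ℝ) (K : ℕ) : Monotone (FK p K) := fun _ _ h => prq_mono fun _ hx => le_trans hx h

/-- the limit law -/
noncomputable def FF (p u : ℝ) : ℝ := ⨅ K, FK p K u

theorem FK_bdd (p u : ℝ) : BddBelow (Set.range fun K => FK p K u) :=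
  ⟨0, by rintro _ ⟨K, rfl⟩; exact prq_nonneg _ _⟩

theorem FF_lim (p u : ℝ) : Tendsto (fun K => FK p K u) atTop (𝓝 (FF p u)) :=
  tendsto_atTop_ciInf (FK_anti p u) (FK_bdd p u)

theorem FF_mono (p : ℝ) : Monotone (FF p) := fun _ _ h =>
  le_of_tendsto_of_tendsto' (FF_lim p _) (FF_lim p _) fun K => FK_mono p K h

theorem FF_le (p u : ℝ) : FF p u ≤ 1 :=
  le_of_tendsto' (FF_lim p u) fun K => prq_le_one _ _

theorem FF_le_FK (p u : ℝ) (K : ℕ) : FF p u ≤ FK p K u := ciInf_le (FK_bdd p u) K

theorem wp_ge (p : ℝ) (K x : ℕ) : 1 ≤ wp p K x := by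
  unfold wp
  rw [sum_range_succ']
  have h1 : ((3 : ℝ) ^ od 0 x / 2 ^ 0) ^ p = 1 := by
    simp [od]
  rw [h1]
  have : (0 : ℝ) ≤ ∑ k ∈ range K, ((3 : ℝ) ^ od (k + 1) x / 2 ^ (k + 1)) ^ p := sum_nonneg fun _ _ => by positivity
  linarith

theorem FF_zero (p : ℝ) (u : ℝ) (hu : u < 1) : FF p u = 0 := by
  have : ∀ K, FK p K u = 0 := by
    intro K
    classical
    unfold FK
    rw [prq_eq, filter_false_of_mem]
    · simp
    · intro x _ h
      have := wp_ge p K x
      linarith
  have h := FF_lim p u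
  simp only [this] at h
  exact tendsto_nhds_unique h tendsto_const_nhds

theorem od_le (j x : ℕ) : od j x ≤ j := by
  induction j with
  | zero => simp [od]
  | succ j ih =>
    rw [Pool.Agent.Helper894.Collatz.od_succ]
    omega

theorem od_one (x : ℕ) : od 1 x = x % 2 := by
  have := Pool.Agent.Helper894.Collatz.od_succ 0 x
  rw [this]
  simp [od]

theorem wp_succ (p : ℝ) (K x : ℕ) : wp p (K + 1) x = 1 + ((3 : ℝ) ^ (x % 2) / 2) ^ p * wp p K (T x) := by
  unfold wp
  rw [sum_range_succ', mul_sum, add_comm]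
  congr 1
  · simp [od]
  · apply sum_congr rfl
    intro j _
    have h1 : od (j + 1) x = x % 2 + od j (T x) := by
      have := od_add 1 j x
      rw [add_comm 1 j, od_one, Function.iterate_one] at this
      exact this
    rw [h1, ← Real.mul_rpow (by positivity) (by positivity)]
    congr 1
    rw [pow_add, pow_succ]
    field_simp

theorem FK_eq (p : ℝ) (K : ℕ) (u : ℝ) :
    FK p (K + 1) u = 1 / 2 * FK p K ((u - 1) * 2 ^ p) + 1 / 2 * FK p K ((u - 1) * (2 / 3) ^ p) := by
  classical
  have hA0 : Per (2 ^ 1) (fun x => x % 2 = 0) := fun x => by simp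
  have hA1 : Per (2 ^ 1) (fun x => x % 2 = 1) := fun x => by simp
  have h0 := prod_prq (j := 1) (q := 2 ^ K) (by positivity) (Nat.Coprime.pow_left _ (by norm_num)) hA0
    (wp_per p ((u - 1) * 2 ^ p) K)
  have h1 := prod_prq (j := 1) (q := 2 ^ K) (by positivity) (Nat.Coprime.pow_left _ (by norm_num)) hA1
    (wp_per p ((u - 1) * (2 / 3) ^ p) K)
  have e0 : prq (2 ^ 1) (fun x => x % 2 = 0) = 1 / 2 := by
    rw [prq_eq]
    have : (range (2 ^ 1)).filter (fun x => x % 2 = 0) = {0} := by decide
    rw [this, card_singleton]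
    norm_num
  have e1 : prq (2 ^ 1) (fun x => x % 2 = 1) = 1 / 2 := by
    rw [prq_eq]
    have : (range (2 ^ 1)).filter (fun x => x % 2 = 1) = {1} := by decide
    rw [this, card_singleton]
    norm_num
  rw [e0] at h0
  rw [e1] at h1
  unfold FK
  rw [← h0, ← h1, show 2 ^ 1 * 2 ^ K = 2 ^ (K + 1) by ring, prq_eq, prq_eq, prq_eq, ← add_div, ← Nat.cast_add,
    ← card_union_of_disjoint]
  · congr 3
    ext x
    rw [mem_union, mem_filter, mem_filter, mem_filter, Function.iterate_one, ← and_or_left]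
    refine and_congr_right fun _ => ?_
    rw [wp_succ]
    rcases Nat.mod_two_eq_zero_or_one x with h | h
    · have e : 1 + ((3 : ℝ) ^ (x % 2) / 2) ^ p * wp p K (T x) ≤ u ↔ wp p K (T x) ≤ (u - 1) * 2 ^ p := by
        rw [h, pow_zero, Real.div_rpow (by norm_num) (by norm_num), Real.one_rpow, ← div_le_iff₀ (by positivity)]
        rw [one_div_mul_eq_div]
        constructor <;> intro h2 <;> linarith
      rw [e]
      constructor
      · intro h2; exact Or.inl ⟨h, h2⟩
      · rintro (h2 | h2)
        · exact h2.2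
        · omega
    · have e : 1 + ((3 : ℝ) ^ (x % 2) / 2) ^ p * wp p K (T x) ≤ u ↔ wp p K (T x) ≤ (u - 1) * (2 / 3) ^ p := by
        have h3 : ((3 : ℝ) / 2) ^ p * (2 / 3) ^ p = 1 := by
          rw [← Real.mul_rpow (by norm_num) (by norm_num)]
          norm_num
        have h4 : (0 : ℝ) < (3 / 2) ^ p := by positivity
        have h5 : (0 : ℝ) < (2 / 3) ^ p := by positivity
        rw [h, pow_one]
        constructor
        · intro h2
          have h6 : ((3 : ℝ) / 2) ^ p * wp p K (T x) ≤ u - 1 := by linarith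
          calc wp p K (T x) = ((3 : ℝ) / 2) ^ p * wp p K (T x) * (2 / 3) ^ p := by
                linear_combination -(wp p K (T x)) * h3
            _ ≤ (u - 1) * (2 / 3) ^ p := mul_le_mul_of_nonneg_right h6 h5.le
        · intro h2
          have h6 : ((3 : ℝ) / 2) ^ p * wp p K (T x) ≤ (3 / 2) ^ p * ((u - 1) * (2 / 3) ^ p) :=
            mul_le_mul_of_nonneg_left h2 h4.le
          have h7 : ((3 : ℝ) / 2) ^ p * ((u - 1) * (2 / 3) ^ p) = u - 1 := by linear_combination (u - 1) * h3
          linarith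
      rw [e]
      constructor
      · intro h2; exact Or.inr ⟨h, h2⟩
      · rintro (h2 | h2)
        · omega
        · exact h2.2
  · rw [disjoint_left]
    intro x g1 g2
    rw [mem_filter] at g1 g2
    have := g1.2.1
    have := g2.2.1
    omega

theorem FF_eq (p : ℝ) (u : ℝ) :
    FF p u = 1 / 2 * FF p ((u - 1) * 2 ^ p) + 1 / 2 * FF p ((u - 1) * (2 / 3) ^ p) := by
  have h1 := (FF_lim p u).comp (tendsto_add_atTop_nat 1)
  have h2 := ((FF_lim p ((u - 1) * 2 ^ p)).const_mul (1 / 2)).add ((FF_lim p ((u - 1) * (2 / 3) ^ p)).const_mul (1 / 2))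
  refine tendsto_nhds_unique h1 (h2.congr fun K => ?_)
  simp only [Function.comp_apply]
  rw [FK_eq p K u]

/-- tightness -/
theorem FF_top (p : ℝ) (hp : 0 < p) : Tendsto (FF p) atTop (𝓝 1) := by
  classical
  have hbe : (0 : ℝ) < be := by unfold be; norm_num
  have hbe1 : be < 1 := by unfold be; norm_num
  have hbp : be ^ p < 1 := Real.rpow_lt_one hbe.le hbe1 hp
  have hbp0 : 0 < be ^ p := by positivity
  rw [Metric.tendsto_atTop]
  intro ε hε
  have hga : Tendsto (fun K : ℕ => Real.sqrt 2 * ga ^ K / (1 - ga)) atTop (𝓝 0) := by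
    have h1 := (tendsto_pow_atTop_nhds_zero_of_lt_one ga_pos.le ga_lt).const_mul (Real.sqrt 2 / (1 - ga))
    rw [mul_zero] at h1
    refine h1.congr fun K => ?_
    ring
  obtain ⟨K1, hK1⟩ := (hga.eventually (gt_mem_nhds (show (0 : ℝ) < ε / 2 by positivity))).exists
  set U : ℝ := ∑ j ∈ range K1, (((3 : ℝ) / 2) ^ j) ^ p + 1 / (1 - be ^ p) with hU
  refine ⟨U, fun u hu => ?_⟩
  rw [Real.dist_eq, abs_sub_comm, abs_of_nonneg (by linarith [FF_le p u])]
  have key : ∀ K, 1 - ε / 2 ≤ FK p K u := by
    intro K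
    have h1 : ∀ x, (∀ j ∈ Icc K1 K, ¬ Lm j x) → wp p K x ≤ u := by
      intro x hx
      refine le_trans ?_ hu
      have h2 : wp p K x ≤ ∑ j ∈ range K1 ∪ Icc K1 K, ((3 : ℝ) ^ od j x / 2 ^ j) ^ p := by
        unfold wp
        apply sum_le_sum_of_subset_of_nonneg
        · intro j hj
          rw [mem_range] at hj
          rw [mem_union, mem_range, mem_Icc]
          omega
        · intro j _ _
          positivity
      refine h2.trans ?_
      rw [sum_union]
      · apply add_le_add
        · apply sum_le_sum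
          intro j _
          apply Real.rpow_le_rpow (by positivity) _ hp.le
          rw [div_pow]
          apply div_le_div_of_nonneg_right _ (by positivity)
          exact pow_le_pow_right₀ (by norm_num) (od_le j x)
        · calc ∑ j ∈ Icc K1 K, ((3 : ℝ) ^ od j x / 2 ^ j) ^ p ≤ ∑ j ∈ Icc K1 K, (be ^ p) ^ j := by
                apply sum_le_sum
                intro j hj
                have h3 := hx j hj
                unfold Lm at h3
                push Not at h3
                have h4 : (3 : ℝ) ^ od j x / 2 ^ j ≤ be ^ j := h3.trans (by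
                  have : 0 < be ^ j := by positivity
                  linarith)
                calc ((3 : ℝ) ^ od j x / 2 ^ j) ^ p ≤ (be ^ j) ^ p := Real.rpow_le_rpow (by positivity) h4 hp.le
                  _ = (be ^ p) ^ j := by
                      rw [← Real.rpow_natCast, ← Real.rpow_mul hbe.le, mul_comm, Real.rpow_mul hbe.le, Real.rpow_natCast]
            _ ≤ ∑' j, (be ^ p) ^ j :=
                (summable_geometric_of_lt_one hbp0.le hbp).sum_le_tsum _ (fun j _ => by positivity)
            _ = 1 / (1 - be ^ p) := by rw [tsum_geometric_of_lt_one hbp0.le hbp, one_div]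
      · rw [disjoint_left]
        intro j g1 g2
        rw [mem_range] at g1
        rw [mem_Icc] at g2
        omega
    have h2 : (1 : ℝ) ≤ FK p K u + ∑ j ∈ Icc K1 K, prq (2 ^ K) (Lm j) := by
      have h3 : range (2 ^ K) ⊆ ((range (2 ^ K)).filter fun x => wp p K x ≤ u) ∪
          (Icc K1 K).biUnion fun j => (range (2 ^ K)).filter (Lm j) := by
        intro x hx
        rw [mem_union, mem_filter, mem_biUnion]
        by_cases h4 : wp p K x ≤ u
        · exact Or.inl ⟨hx, h4⟩
        · right
          by_contra h5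
          push Not at h5
          apply h4
          apply h1
          intro j hj h6
          exact h5 j hj (mem_filter.2 ⟨hx, h6⟩)
      have h4 := (card_le_card h3).trans ((card_union_le _ _).trans (Nat.add_le_add_left card_biUnion_le _))
      rw [card_range] at h4
      have h5 : ((2 ^ K : ℕ) : ℝ) ≤ ((range (2 ^ K)).filter fun x => wp p K x ≤ u).card
          + ∑ j ∈ Icc K1 K, (((range (2 ^ K)).filter (Lm j)).card : ℝ) := by exact_mod_cast h4
      unfold FK
      rw [prq_eq]
      have h6 : ∑ j ∈ Icc K1 K, prq (2 ^ K) (Lm j)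
          = (∑ j ∈ Icc K1 K, (((range (2 ^ K)).filter (Lm j)).card : ℝ)) / ((2 ^ K : ℕ) : ℝ) := by
        rw [sum_div]
        exact sum_congr rfl fun j _ => prq_eq _ _
      rw [h6, ← add_div, one_le_div (by positivity)]
      exact h5
    have h3 : ∑ j ∈ Icc K1 K, prq (2 ^ K) (Lm j) ≤ ε / 2 := by
      have h4 : ∀ j ∈ Icc K1 K, prq (2 ^ K) (Lm j) ≤ Real.sqrt 2 * ga ^ j := by
        intro j hj
        rw [mem_Icc] at hj
        rw [(prq_lift hj.2 (Lm_per j)).2, prq_pow]
        exact pr_Lm j
      refine (sum_le_sum h4).trans ?_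
      rw [← mul_sum]
      have h5 : ∑ j ∈ Icc K1 K, ga ^ j ≤ ga ^ K1 / (1 - ga) := by
        have h5 : ∑ j ∈ Icc K1 K, ga ^ j ≤ ∑ j ∈ Ico K1 (K + 1 + K1), ga ^ j := by
          apply sum_le_sum_of_subset_of_nonneg
          · intro j hj
            rw [mem_Icc] at hj
            rw [mem_Ico]
            omega
          · intro j _ _
            exact pow_nonneg ga_pos.le _
        refine h5.trans ?_
        rw [geom_sum_Ico' ga_lt.ne (by omega)]
        apply div_le_div_of_nonneg_right _ (by linarith [ga_lt])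
        have := pow_nonneg ga_pos.le (K + 1 + K1)
        linarith
      calc Real.sqrt 2 * ∑ j ∈ Icc K1 K, ga ^ j ≤ Real.sqrt 2 * (ga ^ K1 / (1 - ga)) :=
            mul_le_mul_of_nonneg_left h5 (by positivity)
        _ = Real.sqrt 2 * ga ^ K1 / (1 - ga) := by ring
        _ ≤ ε / 2 := hK1.le
    linarith
  have h2 : 1 - ε / 2 ≤ FF p u := ge_of_tendsto' (FF_lim p u) key
  linarith

theorem FF_cont (p : ℝ) (hp : 0 < p) : Continuous (FF p) := by
  have h2 : (1 : ℝ) < 2 ^ p := Real.one_lt_rpow (by norm_num) hp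
  have h3 : ((2 : ℝ) / 3) ^ p < 2 ^ p := Real.rpow_lt_rpow (by norm_num) (by norm_num) hp
  exact cont_of_eq (FF p) (FF_mono p) (FF_zero p) (FF_le p) (FF_top p hp) h2 (by positivity) h3 (FF_eq p)

end Pool.Agent.V11311.SL
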